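import Pool.Agent.H95.CMC.Targets
import Pool.Agent.H95.CM4.CLSU

/-!
# Row F_LSX: the lattices on which the form is divisible, without coordinates
-/

set_option autoImplicit false
set_option linter.unusedSectionVars false

open MeasureTheory Set Filter NumberField
open scoped Real nonZeroDivisors

namespace Pool.Agent.H13.CMC

open Pool.Agent.H65.CM4 Pool.Agent.H65.CMC Pool.Agent.H95.CMC
open Pool.Agent.H95.CM (lin lin_add lin_smul T_MEM T_IXL)
open Pool.Agent.H95.CM4 (cancel_b lin_inj intNorm_coe lin_sub)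

section

variable {k K : Type} [Field k] [NumberField k] [IsTotallyReal k] [Field K] [NumberField K]
  [IsTotallyComplex K] [Algebra k K] [Algebra.IsQuadraticExtension k K]

theorem mem_us {α β : K} {N : La k} {x : 𝓞 K} :
    x ∈ us α β N ↔ ∃ u ∈ N, (x : K) = lin α β u := Iff.rfl

theorem smul_coe (c : 𝓞 k) (x : 𝓞 K) :
    ((c • x : 𝓞 K) : K) = algebraMap k K (c : k) * (x : K) := by
  rw [Algebra.smul_def]
  push_cast
  rfl

theorem mu_ne {b : ℕ} {Λ : Sl k K} {α β : K} {μ : k} {M : La k} {Q : QF k}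
    (hO : Ol b Λ α β μ M Q) : μ ≠ 0 := by
  obtain ⟨v⟩ : Nonempty (Pl k) := inferInstance
  intro h
  have := hO.pos v
  rw [h, map_zero] at this
  exact lt_irrefl _ this

/-- elements of the product are multiples of `μ` -/
theorem mem_mul_ns {b : ℕ} {Λ : Sl k K} {α β : K} {μ : k} {M : La k} {Q : QF k}
    (hO : Ol b Λ α β μ M Q) (𝔞 : Ideal (𝓞 k)) (z : 𝓞 k) (hz : z ∈ 𝔞 * ns Λ) :
    ∃ t ∈ 𝔞, algebraMap (𝓞 k) k z = μ * algebraMap (𝓞 k) k t := by
  have h1 : ∀ n ∈ ns Λ, ∃ t : 𝓞 k, algebraMap (𝓞 k) k n = μ * algebraMap (𝓞 k) k t := by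
    intro n hn
    refine Submodule.span_induction ?_ ?_ ?_ ?_ hn
    · rintro _ ⟨x, hx, rfl⟩
      obtain ⟨u, hu⟩ := hO.mem x hx
      refine ⟨val Q u, ?_⟩
      have h2 := intNorm_coe (k := k) x
      rw [← hu, hO.nrm] at h2
      exact h2
    · exact ⟨0, by simp⟩
    · rintro x y _ _ ⟨t, ht⟩ ⟨t', ht'⟩
      exact ⟨t + t', by rw [map_add, map_add, ht, ht']; ring⟩
    · rintro c x _ ⟨t, ht⟩
      exact ⟨c * t, by rw [smul_eq_mul, map_mul, map_mul, ht]; ring⟩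
  refine Submodule.mul_induction_on hz ?_ ?_
  · intro a ha n hn
    obtain ⟨t, ht⟩ := h1 n hn
    exact ⟨a * t, 𝔞.mul_mem_right _ ha, by rw [map_mul, map_mul, ht]; ring⟩
  · rintro x y ⟨t, ht, et⟩ ⟨t', ht', et'⟩
    exact ⟨t + t', 𝔞.add_mem ht ht', by rw [map_add, map_add, et, et']; ring⟩

end

theorem pf_LSX (hMEM : T_MEM) (hIXL : T_IXL) : T_LSX := by
  intro k K _ _ _ _ _ _ _ _ b Λ α β μ M Q hb hO 𝔞 h𝔞 h𝔞b
  have hinj := hO.inj
  have hμ := mu_ne hO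
  have hM : ∀ u : V2 k, u ∈ M ↔ ∃ x ∈ Λ, (x : K) = lin α β u := by
    intro u; rw [hO.lat]; exact Iff.rfl
  -- the inverse of `b`
  obtain ⟨e, a0, ha0, heb⟩ : ∃ e a0 : 𝓞 k, a0 ∈ 𝔞 ∧ e * b + a0 = 1 := by
    have h1 : (1 : 𝓞 k) ∈ 𝔞 ⊔ Ideal.span {(b : 𝓞 k)} := by rw [h𝔞b]; trivial
    obtain ⟨y, hy, z, hz, e⟩ := Submodule.mem_sup.mp h1
    obtain ⟨c, rfl⟩ := Ideal.mem_span_singleton'.mp hz
    exact ⟨c, y, hy, by rw [add_comm]; exact e⟩
  -- elements of `Λ`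
  have hΛ : ∀ x ∈ Λ, ∃ u ∈ M, (x : K) = lin α β u := by
    intro x hx
    obtain ⟨u, hu⟩ := hO.mem x hx
    exact ⟨u, (hM u).2 ⟨x, hx, hu.symm⟩, hu.symm⟩
  have hΛM : ∀ (x : 𝓞 K) (u : V2 k), u ∈ M → (x : K) = lin α β u → x ∈ Λ := by
    intro x u hu hx
    obtain ⟨y, hy, ey⟩ := (hM u).1 hu
    have : x = y := RingOfIntegers.ext (by rw [hx, ey])
    rw [this]; exact hy
  have hN : ∀ (x : 𝓞 K) (u : V2 k), (x : K) = lin α β u →
      algebraMap (𝓞 k) k (Algebra.intNorm (𝓞 k) (𝓞 K) x) = μ * algebraMap (𝓞 k) k (val Q u) := by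
    intro x u hx
    have h2 := intNorm_coe (k := k) x
    rw [hx, hO.nrm] at h2
    exact h2
  refine ⟨?_, ?_, ?_⟩
  · intro L hL hDv
    obtain ⟨u₀, hu₀, hLw⟩ := ((hMEM k).1 𝔞 L h𝔞).mp hL
    have hLm : ∀ u : V2 k, u ∈ L ↔ det u₀ u ∈ 𝔞 := by
      intro u; rw [hLw]; exact Iff.rfl
    obtain ⟨p, q, z, hz, hpq⟩ : ∃ p q z : 𝓞 k, z ∈ 𝔞 ∧ p * u₀.1 + q * u₀.2 + z = 1 := by
      have h1 : (1 : 𝓞 k) ∈ Ideal.span {u₀.1, u₀.2} ⊔ 𝔞 := by
        have : Ideal.span {u₀.1, u₀.2} ⊔ 𝔞 = ⊤ := hu₀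
        rw [this]; trivial
      obtain ⟨y, hy, z, hz, e⟩ := Submodule.mem_sup.mp h1
      obtain ⟨p, q, hpq⟩ := Ideal.mem_span_pair.mp hy
      exact ⟨p, q, z, hz, by rw [hpq]; exact e⟩
    have hsub : us α β (M ⊓ L) ≤ Λ := by
      rintro x ⟨u, hu, hx⟩
      exact hΛM x u hu.1 hx
    refine ⟨hsub, ?_, ?_⟩
    · obtain ⟨w, hw⟩ : ∃ w : V2 k, w = (-q, p) := ⟨_, rfl⟩
      have hdw : det u₀ w = 1 - z := by
        rw [hw]; simp only [det]; linear_combination hpq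
      obtain ⟨l, hl, hle⟩ := (hM _).1 (hO.bM w)
      have hdc : ∀ c : 𝓞 k, det u₀ (c • ((b : 𝓞 k) • w)) = c * b * (1 - z) := by
        intro c
        rw [← hdw]
        simp only [det, Prod.smul_fst, Prod.smul_snd, smul_eq_mul]
        ring
      have hlc : ∀ c : 𝓞 k, ((c • l : 𝓞 K) : K) = lin α β (c • ((b : 𝓞 k) • w)) := by
        intro c
        rw [smul_coe, hle, ← lin_smul]
      refine ⟨l, hl, ?_, ?_⟩
      · intro x hx
        obtain ⟨u, hu, hxu⟩ := hΛ x hx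
        refine ⟨e * det u₀ u, u - (e * det u₀ u) • ((b : 𝓞 k) • w), ⟨?_, ?_⟩, ?_⟩
        · exact M.sub_mem hu (M.smul_mem _ (hO.bM w))
        · change _ ∈ L
          rw [hLm]
          have h1 : det u₀ (u - (e * det u₀ u) • ((b : 𝓞 k) • w)) =
              det u₀ u - det u₀ ((e * det u₀ u) • ((b : 𝓞 k) • w)) := by
            simp only [det, Prod.fst_sub, Prod.snd_sub]
            ring
          have h2 : det u₀ u - det u₀ ((e * det u₀ u) • ((b : 𝓞 k) • w)) =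
              det u₀ u * (1 - z) * a0 + det u₀ u * z := by
            rw [hdc]
            linear_combination (det u₀ u * (z - 1)) * heb
          rw [h1, h2]
          exact 𝔞.add_mem (𝔞.mul_mem_left _ ha0) (𝔞.mul_mem_left _ hz)
        · rw [lin_sub, ← hlc, ← hxu]
          push_cast
          rfl
      · intro c
        constructor
        · rintro ⟨u, hu, hcu⟩
          rw [hlc] at hcu
          have h1 := lin_inj hinj hcu
          have h2 : det u₀ u ∈ 𝔞 := (hLm u).1 hu.2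
          rw [← h1, hdc] at h2
          refine cancel_b h𝔞b ?_
          have h3 : (b : 𝓞 k) * c = c * b * (1 - z) + c * b * z := by ring
          rw [h3]
          exact 𝔞.add_mem h2 (𝔞.mul_mem_left _ hz)
        · intro hc
          refine ⟨c • ((b : 𝓞 k) • w), ⟨M.smul_mem _ (hO.bM w), ?_⟩, hlc c⟩
          change _ ∈ L
          rw [hLm, hdc, mul_assoc]
          exact 𝔞.mul_mem_right _ hc
    · rintro x ⟨u, hu, hxu⟩
      have hxΛ : x ∈ Λ := hΛM x u hu.1 hxu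
      have hxn : Algebra.intNorm (𝓞 k) (𝓞 K) x ∈ ns Λ := Ideal.subset_span ⟨x, hxΛ, rfl⟩
      have h1 : ∀ a ∈ Ideal.span {a : 𝓞 k | ∃ u ∈ M, val Q u = a},
          a * Algebra.intNorm (𝓞 k) (𝓞 K) x ∈ 𝔞 * ns Λ := by
        intro a ha
        refine Submodule.span_induction ?_ ?_ ?_ ?_ ha
        · rintro _ ⟨w, hw, rfl⟩
          obtain ⟨y, hy, ey⟩ := (hM w).1 hw
          have h2 : val Q w * Algebra.intNorm (𝓞 k) (𝓞 K) x =
              val Q u * Algebra.intNorm (𝓞 k) (𝓞 K) y := by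
            apply RingOfIntegers.ext
            change algebraMap (𝓞 k) k _ = algebraMap (𝓞 k) k _
            rw [map_mul, map_mul, hN x u hxu, hN y w ey]
            ring
          rw [h2]
          exact Ideal.mul_mem_mul (hDv u hu.2) (Ideal.subset_span ⟨y, hy, rfl⟩)
        · rw [zero_mul]; exact Ideal.zero_mem _
        · intro y z _ _ hy hz
          rw [add_mul]; exact Ideal.add_mem _ hy hz
        · intro c y _ hy
          rw [smul_eq_mul, mul_assoc]; exact Ideal.mul_mem_left _ _ hy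
      have h3 := h1 _ hO.cop
      have h4 : Algebra.intNorm (𝓞 k) (𝓞 K) x = e * ((b : 𝓞 k) * Algebra.intNorm (𝓞 k) (𝓞 K) x) +
          a0 * Algebra.intNorm (𝓞 k) (𝓞 K) x := by
        linear_combination (-Algebra.intNorm (𝓞 k) (𝓞 K) x) * heb
      rw [h4]
      exact Ideal.add_mem _ (Ideal.mul_mem_left _ _ h3) (Ideal.mul_mem_mul ha0 hxn)
  · rintro Λ' ⟨hle, ⟨l, hl, hgen, hla⟩, hnorm⟩
    obtain ⟨w₀, hw₀, hlw⟩ := hΛ l hl
    obtain ⟨f₁, hf₁, ef₁⟩ := (hM _).1 (hO.bM (1, 0))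
    obtain ⟨f₂, hf₂, ef₂⟩ := (hM _).1 (hO.bM (0, 1))
    obtain ⟨c₁, hc₁⟩ := hgen f₁ hf₁
    obtain ⟨c₂, hc₂⟩ := hgen f₂ hf₂
    obtain ⟨u, hu⟩ : ∃ u : V2 k, u = (c₂, -c₁) := ⟨_, rfl⟩
    have hdet : ∀ w : V2 k, det u w = c₁ * w.1 + c₂ * w.2 := by
      intro w
      rw [hu]; simp only [det]; ring
    -- the relation (A)
    have hA : ∀ (x : 𝓞 K) (w : V2 k), (x : K) = lin α β w →
        (b : 𝓞 k) • x - det u w • l ∈ Λ' := by
      intro x w hxw
      have h1 : (b : 𝓞 k) • x = w.1 • f₁ + w.2 • f₂ := by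
        apply RingOfIntegers.ext
        have hadd : ((w.1 • f₁ + w.2 • f₂ : 𝓞 K) : K) =
            ((w.1 • f₁ : 𝓞 K) : K) + ((w.2 • f₂ : 𝓞 K) : K) := map_add (algebraMap (𝓞 K) K) _ _
        rw [hadd, smul_coe, smul_coe, smul_coe, ef₁, ef₂, hxw, ← lin_smul, ← lin_smul,
          ← lin_smul, ← lin_add]
        congr 1
        ext <;> simp [mul_comm]
      have h2 : (b : 𝓞 k) • x - det u w • l = w.1 • (f₁ - c₁ • l) + w.2 • (f₂ - c₂ • l) := by
        rw [h1, hdet]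
        module
      rw [h2]
      exact Λ'.add_mem (Λ'.smul_mem _ hc₁) (Λ'.smul_mem _ hc₂)
    have hkey : ∀ (x : 𝓞 K) (w : V2 k), x ∈ Λ → (x : K) = lin α β w →
        (x ∈ Λ' ↔ det u w ∈ 𝔞) := by
      intro x w hx hxw
      have h1 := hA x w hxw
      constructor
      · intro h
        rw [← hla]
        have h2 := Λ'.sub_mem (Λ'.smul_mem (b : 𝓞 k) h) h1
        rwa [sub_sub_cancel] at h2
      · intro h
        have h2 : (b : 𝓞 k) • x ∈ Λ' := by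
          have h3 := Λ'.add_mem h1 ((hla _).2 h)
          rwa [sub_add_cancel] at h3
        obtain ⟨c, hc⟩ := hgen x hx
        have h4 : ((b : 𝓞 k) * c) • l ∈ Λ' := by
          have h5 := Λ'.sub_mem h2 (Λ'.smul_mem (b : 𝓞 k) hc)
          have h6 : (b : 𝓞 k) • x - (b : 𝓞 k) • (x - c • l) = ((b : 𝓞 k) * c) • l := by
            module
          rwa [h6] at h5
        have h7 := (hla c).2 (cancel_b h𝔞b ((hla _).1 h4))
        have h8 := Λ'.add_mem hc h7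
        rwa [sub_add_cancel] at h8
    have hCop : Cop 𝔞 u := by
      have h1 : (b : 𝓞 k) - det u w₀ ∈ 𝔞 := by
        have h2 := hA l w₀ hlw
        rw [← sub_smul, hla] at h2
        exact h2
      have h2 : (b : 𝓞 k) ∈ Ideal.span {u.1, u.2} ⊔ 𝔞 := by
        have h3 : (b : 𝓞 k) = det u w₀ + ((b : 𝓞 k) - det u w₀) := by ring
        rw [h3]
        refine Submodule.add_mem_sup ?_ h1
        rw [Ideal.mem_span_pair]
        exact ⟨w₀.2, -w₀.1, by simp only [det]; ring⟩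
      change Ideal.span {u.1, u.2} ⊔ 𝔞 = ⊤
      rw [eq_top_iff, ← h𝔞b]
      refine sup_le le_sup_right ?_
      rw [Ideal.span_singleton_le_iff_mem]
      exact h2
    have hLm : ∀ w : V2 k, w ∈ Lw 𝔞 u ↔ det u w ∈ 𝔞 := fun w => Iff.rfl
    have hus : us α β (M ⊓ Lw 𝔞 u) = Λ' := by
      ext x
      constructor
      · rintro ⟨w, hw, hxw⟩
        exact (hkey x w (hΛM x w hw.1 hxw) hxw).2 ((hLm w).1 hw.2)
      · intro hx
        obtain ⟨w, hw, hxw⟩ := hΛ x (hle hx)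
        exact ⟨w, ⟨hw, (hLm w).2 ((hkey x w (hle hx) hxw).1 hx)⟩, hxw⟩
    refine ⟨Lw 𝔞 u, ((hMEM k).1 𝔞 _ h𝔞).2 ⟨u, hCop, rfl⟩, ?_, hus⟩
    intro w hw
    obtain ⟨x, hx, hxw⟩ := (hM _).1 (hO.bM w)
    have hbw : (b : 𝓞 k) • w ∈ Lw 𝔞 u := (Lw 𝔞 u).smul_mem _ hw
    have hx' : x ∈ Λ' := (hkey x _ hx hxw).2 ((hLm _).1 hbw)
    obtain ⟨t, ht, et⟩ := mem_mul_ns hO 𝔞 _ (hnorm x hx')
    have h1 : val Q ((b : 𝓞 k) • w) = t := by
      apply RingOfIntegers.ext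
      change algebraMap (𝓞 k) k _ = algebraMap (𝓞 k) k _
      rw [hN x _ hxw] at et
      exact mul_left_cancel₀ hμ et
    have h2 : val Q ((b : 𝓞 k) • w) = (b : 𝓞 k) * ((b : 𝓞 k) * val Q w) := by
      simp only [val, Prod.smul_fst, Prod.smul_snd, smul_eq_mul]
      ring
    have h3 : (b : 𝓞 k) * ((b : 𝓞 k) * val Q w) ∈ 𝔞 := by rw [← h2, h1]; exact ht
    exact cancel_b h𝔞b (cancel_b h𝔞b h3)
  · intro L hL L' hL' hLL
    refine (hIXL k b M 𝔞 hb hO.bM h𝔞 h𝔞b).2.2.2 L hL L' hL' ?_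
    have key : ∀ N N' : La k, us (K := K) α β (M ⊓ N) = us α β (M ⊓ N') → M ⊓ N ≤ M ⊓ N' := by
      intro N N' h w hw
      obtain ⟨x, _, hxw⟩ := (hM w).1 hw.1
      have h1 : x ∈ us α β (M ⊓ N) := ⟨w, hw, hxw⟩
      rw [h] at h1
      obtain ⟨v, hv, hxv⟩ := h1
      have h2 : w = v := lin_inj hinj (by rw [← hxw, hxv])
      rw [h2]; exact hv
    exact le_antisymm (key L L' hLL) (key L' L hLL.symm)

end Pool.Agent.H13.CMC
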