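import Pool.Agent.H95.CMC.Targets
import Pool.Agent.H95.CM4.CLSU

/-!
# Row F_MUN: a lattice and a form determine the norm of the conductor
-/

set_option autoImplicit false
set_option linter.unusedSectionVars false

open MeasureTheory Set Filter NumberField
open scoped Real nonZeroDivisors

namespace Pool.Agent.H13.CMC

open Pool.Agent.H65.CM4 Pool.Agent.H65.CMC Pool.Agent.H95.CMC
open Pool.Agent.H95.CM (lin lin_add lin_smul T_NTP)
open Pool.Agent.H95.CM4 (intNorm_coe)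

/-- the norm of a principal ideal -/
theorem absNorm_single {k : Type} [Field k] [NumberField k] [IsTotallyReal k]
    (h : ∀ x : k, ∏ v : Pl k, |rv v x| = |((Algebra.norm ℚ x : ℚ) : ℝ)|) (d : 𝓞 k) :
    (Ideal.absNorm (Ideal.span {d}) : ℝ) = ∏ v : Pl k, |rv v (d : k)| := by
  rw [h, Ideal.absNorm_span_singleton]
  have h1 : ((Algebra.norm ℤ d : ℤ) : ℚ) = Algebra.norm ℚ (d : k) := Algebra.coe_norm_int d
  rw [← h1, Nat.cast_natAbs]
  push_cast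
  rfl

theorem ns_norm {k K : Type} [Field k] [NumberField k] [IsTotallyReal k] [Field K] [NumberField K]
    [IsTotallyComplex K] [Algebra k K] [Algebra.IsQuadraticExtension k K]
    (h : ∀ x : k, ∏ v : Pl k, |rv v x| = |((Algebra.norm ℚ x : ℚ) : ℝ)|)
    (b : ℕ) (Λ : Sl k K) (α β : K) (μ : k) (M : La k) (Q : QF k) (hO : Ol b Λ α β μ M Q) :
    (Ideal.absNorm (ns Λ) : ℝ) =
      (∏ v : Pl k, rv v μ) * Ideal.absNorm (Ideal.span {a : 𝓞 k | ∃ u ∈ M, val Q u = a}) := by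
  obtain ⟨ν, d, hd, hμ⟩ := IsFractionRing.div_surjective (A := 𝓞 k) μ
  have hd0 : algebraMap (𝓞 k) k d ≠ 0 := by
    have := nonZeroDivisors.ne_zero hd
    exact fun h => this (RingOfIntegers.ext (by simpa using h))
  have hμ' : algebraMap (𝓞 k) k d * μ = algebraMap (𝓞 k) k ν := by
    rw [← hμ]; field_simp
  have hM : ∀ u : V2 k, u ∈ M ↔ ∃ x ∈ Λ, (x : K) = lin α β u := by
    intro u; rw [hO.lat]; exact Iff.rfl
  have hN : ∀ (x : 𝓞 K) (u : V2 k), (x : K) = lin α β u →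
      d * Algebra.intNorm (𝓞 k) (𝓞 K) x = ν * val Q u := by
    intro x u hx
    have h2 := intNorm_coe (k := k) x
    rw [hx, hO.nrm] at h2
    apply RingOfIntegers.ext
    change algebraMap (𝓞 k) k _ = algebraMap (𝓞 k) k _
    have h3 : algebraMap (𝓞 k) k (Algebra.intNorm (𝓞 k) (𝓞 K) x) =
        μ * algebraMap (𝓞 k) k (val Q u) := h2
    rw [map_mul, map_mul, h3, ← mul_assoc, hμ']
  have h1 : Ideal.span {d} * ns Λ =
      Ideal.span {ν} * Ideal.span {a : 𝓞 k | ∃ u ∈ M, val Q u = a} := by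
    unfold ns
    rw [Ideal.span_mul_span', Ideal.span_mul_span', Set.singleton_mul, Set.singleton_mul]
    congr 1
    ext a
    constructor
    · rintro ⟨_, ⟨x, hx, rfl⟩, rfl⟩
      obtain ⟨u, hu⟩ := hO.mem x hx
      exact ⟨val Q u, ⟨u, (hM u).2 ⟨x, hx, hu.symm⟩, rfl⟩, (hN x u hu.symm).symm⟩
    · rintro ⟨_, ⟨u, hu, rfl⟩, rfl⟩
      obtain ⟨x, hx, hxu⟩ := (hM u).1 hu
      exact ⟨_, ⟨x, hx, rfl⟩, hN x u hxu⟩
  have h2 := congrArg (fun J => (Ideal.absNorm J : ℝ)) h1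
  simp only [map_mul, Nat.cast_mul] at h2
  rw [absNorm_single h, absNorm_single h] at h2
  have h3 : ∏ v : Pl k, |rv v (ν : k)| = (∏ v : Pl k, |rv v (d : k)|) * ∏ v : Pl k, rv v μ := by
    rw [← Finset.prod_mul_distrib]
    refine Finset.prod_congr rfl fun v _ => ?_
    have h4 : rv v (ν : k) = rv v (d : k) * rv v μ := by
      rw [← map_mul]
      exact congrArg (rv v) hμ'.symm
    rw [h4, abs_mul, abs_of_pos (hO.pos v)]
  rw [h3] at h2
  have h5 : (∏ v : Pl k, |rv v (d : k)|) ≠ 0 := by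
    rw [Finset.prod_ne_zero_iff]
    intro v _
    rw [Ne, abs_eq_zero, map_eq_zero]
    exact hd0
  exact mul_left_cancel₀ h5 (by rw [h2]; ring)

theorem cond_eq {k K : Type} [Field k] [NumberField k] [IsTotallyReal k] [Field K] [NumberField K]
    [IsTotallyComplex K] [Algebra k K] [Algebra.IsQuadraticExtension k K]
    (hCVL : T_CVL) (hLNB : T_LNB) (hLNI : T_LNI) (hNTP : T_NTP)
    (f : Ideal (𝓞 k)) (b : ℕ) (I : Ideal (𝓞 K)) (Λ : Sl k K) (α β : K) (μ : k) (M : La k)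
    (Q : QF k) (hf : f ≠ ⊥) (hI : PrTo f I) (hΛ : Λ ∈ Ln f I) (hb : 0 < b)
    (hO : Ol b Λ α β μ M Q) :
    (Ideal.absNorm f : ℝ) ^ 2 *
      (|(discr K : ℝ)| * Ideal.absNorm (Ideal.span {a : 𝓞 k | ∃ u ∈ M, val Q u = a}) ^ 2) =
      (ix M : ℝ) ^ 2 * (dk k : ℝ) ^ 2 * ∏ v : Pl k, rv v (dsc Q : k) := by
  obtain ⟨l, hl, hlf, rfl⟩ := ((hLNB k K f I hf hI).1 Λ).1 hΛ
  obtain ⟨h1, h2⟩ := hLNI k K f I l hf hI hl hlf
  have hI0 : Ideal.absNorm I ≠ 0 := by rw [Ne, Ideal.absNorm_eq_zero_iff]; exact hI.1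
  have hf0 : Ideal.absNorm f ≠ 0 := by rwa [Ne, Ideal.absNorm_eq_zero_iff]
  have h3 : ixs (ln f I l) ≠ 0 := by rw [h1]; exact mul_ne_zero hI0 hf0
  have h4 := (hCVL k K b (ln f I l) α β μ M Q hb h3 hO).2
  have h5 := ns_norm (hNTP k K).2.1 b (ln f I l) α β μ M Q hO
  rw [h2, Ideal.absNorm_relNorm] at h5
  rw [h1] at h4
  push_cast at h4
  rw [h5] at h4
  have h6 : (∏ v : Pl k, rv v μ) ≠ 0 := (Finset.prod_pos fun v _ => hO.pos v).ne'
  have h7 : (∏ v : Pl k, rv v μ) ^ 2 ≠ 0 := pow_ne_zero 2 h6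
  exact mul_left_cancel₀ h7 (by linear_combination h4)

theorem pf_MUN (hCVL : T_CVL) (hLNB : T_LNB) (hLNI : T_LNI) (hNTP : T_NTP) : T_MUN := by
  intro k K _ _ _ _ _ _ _ _ f f' b b' I I' Λ Λ' α β α' β' μ μ' M Q hf hf' hI hI' hΛ hΛ' hb hb'
    hO hO'
  have h1 := cond_eq hCVL hLNB hLNI hNTP f b I Λ α β μ M Q hf hI hΛ hb hO
  have h2 := cond_eq hCVL hLNB hLNI hNTP f' b' I' Λ' α' β' μ' M Q hf' hI' hΛ' hb' hO'
  have h3 : Ideal.absNorm (Ideal.span {a : 𝓞 k | ∃ u ∈ M, val Q u = a}) ≠ 0 := by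
    rw [Ne, Ideal.absNorm_eq_zero_iff]
    intro h
    have h4 := hO.cop
    rw [h, Ideal.mem_bot] at h4
    have h5 : (b : 𝓞 k) ≠ 0 := by exact_mod_cast hb.ne'
    exact h5 h4
  have h4 : (0 : ℝ) < |(discr K : ℝ)| := by
    rw [abs_pos]
    exact_mod_cast discr_ne_zero K
  have h5 : (0 : ℝ) < |(discr K : ℝ)| *
      Ideal.absNorm (Ideal.span {a : 𝓞 k | ∃ u ∈ M, val Q u = a}) ^ 2 := by
    have h6 : (0 : ℝ) < Ideal.absNorm (Ideal.span {a : 𝓞 k | ∃ u ∈ M, val Q u = a}) := by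
      exact_mod_cast Nat.pos_of_ne_zero h3
    positivity
  have h6 : (Ideal.absNorm f : ℝ) ^ 2 = (Ideal.absNorm f' : ℝ) ^ 2 :=
    mul_right_cancel₀ h5.ne' (h1.trans h2.symm)
  have h7 : (Ideal.absNorm f : ℝ) = Ideal.absNorm f' :=
    (pow_left_inj₀ (Nat.cast_nonneg _) (Nat.cast_nonneg _) two_ne_zero).1 h6
  exact_mod_cast h7

end Pool.Agent.H13.CMC
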